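import Pool.Agent.Helper63.XR.StA

/-!
# Project XR (MP_c973ff_an), module GEN: descendants
-/

set_option autoImplicit false

namespace Pool.Agent.Helper84.XR

open Finset Pool.Agent.Helper63.XR

theorem hGEN : StGen := by
  intro P _ _ k b a g
  have h1 : ∀ t n, gen g.ch t (n + 1) = (g.ch t).biUnion fun c => gen g.ch c n := by
    intro t n
    induction n with
    | zero =>
      ext v
      simp [gen]
    | succ n ih =>
      have e : gen g.ch t (n + 1 + 1) = (gen g.ch t (n + 1)).biUnion g.ch := rfl
      rw [e, ih, biUnion_biUnion]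
      rfl
  have h2 : ∀ t n, ∀ u ∈ gen g.ch t n, g.lev u = g.lev t + n := by
    intro t n
    induction n with
    | zero =>
      intro u hu
      have : u = t := by simpa [gen] using hu
      rw [this, add_zero]
    | succ n ih =>
      intro u hu
      have e : gen g.ch t (n + 1) = (gen g.ch t n).biUnion g.ch := rfl
      rw [e, mem_biUnion] at hu
      obtain ⟨w, hw, huw⟩ := hu
      rw [g.ch_lev w u huw, ih w hw]
      ring
  have h3 : ∀ t n, g.lev t = 0 → (gen g.ch t n).card ≤ ∏ i ∈ Icc 1 n, a i := by
    intro t n ht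
    induction n with
    | zero => simp [gen]
    | succ n ih =>
      have e : gen g.ch t (n + 1) = (gen g.ch t n).biUnion g.ch := rfl
      rw [e]
      have hc : ∀ u ∈ gen g.ch t n, (g.ch u).card ≤ a (n + 1) := by
        intro u hu
        have hlu : g.lev u = n := by rw [h2 t n u hu, ht, zero_add]
        by_cases hk : g.lev u < k
        · rw [g.card_ch u hk, hlu]
        · have : g.ch u = ∅ := by
            rw [eq_empty_iff_forall_notMem]
            intro c hcu
            have h4 := g.ch_lev u c hcu
            have h5 := g.lev_le c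
            omega
          rw [this, card_empty]
          exact Nat.zero_le _
      calc ((gen g.ch t n).biUnion g.ch).card ≤ ∑ u ∈ gen g.ch t n, (g.ch u).card :=
            card_biUnion_le
        _ ≤ ∑ _u ∈ gen g.ch t n, a (n + 1) := sum_le_sum hc
        _ = (gen g.ch t n).card * a (n + 1) := by rw [sum_const, smul_eq_mul]
        _ ≤ (∏ i ∈ Icc 1 n, a i) * a (n + 1) := Nat.mul_le_mul_right _ ih
        _ = ∏ i ∈ Icc 1 (n + 1), a i := by
            rw [← prod_Icc_succ_top (by omega)]
  refine ⟨h1, h2, h3, ?_, ?_⟩
  · intro t c hc c' hc' hcc n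
    induction n with
    | zero =>
      simp only [gen]
      rw [disjoint_singleton]
      exact hcc
    | succ n ih =>
      rw [disjoint_left]
      intro v hv hv'
      have e : gen g.ch c (n + 1) = (gen g.ch c n).biUnion g.ch := rfl
      have e' : gen g.ch c' (n + 1) = (gen g.ch c' n).biUnion g.ch := rfl
      rw [e, mem_biUnion] at hv
      rw [e', mem_biUnion] at hv'
      obtain ⟨u, hu, hvu⟩ := hv
      obtain ⟨u', hu', hvu'⟩ := hv'
      have hne : u ≠ u' := by
        rintro rfl
        exact (disjoint_left.1 ih) hu hu'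
      have m1 : u ∈ gen g.ch t (n + 1) := by
        rw [h1, mem_biUnion]
        exact ⟨c, hc, hu⟩
      have m2 : u' ∈ gen g.ch t (n + 1) := by
        rw [h1, mem_biUnion]
        exact ⟨c', hc', hu'⟩
      exact (disjoint_left.1 (g.tree t (n + 1) u u' m1 m2 hne)) hvu hvu'
  · intro t n u hu
    have e : gen g.ch t (n + 1) = (gen g.ch t n).biUnion g.ch := rfl
    have hsub : g.ch u ∩ gen g.ch t (n + 1) ⊆ (gen g.ch t n).biUnion fun u' => g.ch u ∩ g.ch u' := by
      intro v hv
      rw [mem_inter, e, mem_biUnion] at hv
      obtain ⟨hv1, u', hu', hv2⟩ := hv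
      rw [mem_biUnion]
      exact ⟨u', hu', mem_inter.2 ⟨hv1, hv2⟩⟩
    calc (g.ch u ∩ gen g.ch t (n + 1)).card
        ≤ ((gen g.ch t n).biUnion fun u' => g.ch u ∩ g.ch u').card := card_le_card hsub
      _ ≤ ∑ u' ∈ gen g.ch t n, (g.ch u ∩ g.ch u').card := card_biUnion_le
      _ ≤ ∑ _u' ∈ gen g.ch t n, 1 := by
          apply sum_le_sum
          intro u' hu'
          apply g.share
          rintro rfl
          exact hu hu'
      _ = (gen g.ch t n).card := by rw [sum_const, smul_eq_mul, mul_one]

end Pool.Agent.Helper84.XR
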