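import Pool.Agent.Helper63.XR.StB

/-!
# Project XR (MP_c973ff_an), module NLB: lower bound of the norm
-/

set_option autoImplicit false

namespace Pool.Agent.Helper84.XR

open Finset Filter Topology MeasureTheory Pool.Agent.Helper63.XR

section

variable {X : Type} [TopologicalSpace X] [CompactSpace X]

private theorem cmp_norm_NLB (h : X ≃ₜ X) (n : ℤ) (f : C(X, ℂ)) : ‖cmp h n f‖ ≤ ‖f‖ := by
  rw [ContinuousMap.norm_le _ (norm_nonneg f)]
  intro x
  exact f.norm_coe_le_norm _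

/-- the sum of the norms is an upper bound -/
private theorem mem_NLB (h : X ≃ₜ X) (g : FS X) (ρ : Rep X) (ξ : ℤ →₀ Lp ℂ 1 ρ.ν) :
    ∑' m : ℤ, ‖act h ρ g ξ m‖ ≤ (∑ n ∈ g.support, ‖g n‖) * ∑' m : ℤ, ‖ξ m‖ := by
  have hsum : Summable fun m : ℤ => ‖ξ m‖ := by
    apply summable_of_ne_finset_zero (s := ξ.support)
    intro m hm
    rw [Finsupp.notMem_support_iff.1 hm, norm_zero]
  have hshift : ∀ n : ℤ, Summable fun m : ℤ => ‖g n‖ * ‖ξ (m - n)‖ := by
    intro n
    have := (Equiv.subRight n).summable_iff (f := fun m : ℤ => ‖ξ m‖) |>.2 hsum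
    exact this.mul_left _
  have hle : ∀ m : ℤ, ‖act h ρ g ξ m‖ ≤ ∑ n ∈ g.support, ‖g n‖ * ‖ξ (m - n)‖ := by
    intro m
    unfold act Finsupp.sum
    refine (norm_sum_le _ _).trans (sum_le_sum fun n _ => ?_)
    refine ((ρ.π (cmp h m (g n))).le_opNorm _).trans ?_
    exact mul_le_mul_of_nonneg_right ((ρ.contr _).trans (cmp_norm_NLB h m (g n))) (norm_nonneg _)
  have hS : Summable fun m : ℤ => ∑ n ∈ g.support, ‖g n‖ * ‖ξ (m - n)‖ :=
    summable_sum fun n _ => hshift n
  have hA : Summable fun m : ℤ => ‖act h ρ g ξ m‖ :=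
    Summable.of_nonneg_of_le (fun _ => norm_nonneg _) hle hS
  calc ∑' m : ℤ, ‖act h ρ g ξ m‖ ≤ ∑' m : ℤ, ∑ n ∈ g.support, ‖g n‖ * ‖ξ (m - n)‖ :=
        hA.tsum_le_tsum hle hS
    _ = ∑ n ∈ g.support, ∑' m : ℤ, ‖g n‖ * ‖ξ (m - n)‖ :=
        Summable.tsum_finsetSum fun n _ => hshift n
    _ = ∑ n ∈ g.support, ‖g n‖ * ∑' m : ℤ, ‖ξ m‖ := by
        refine sum_congr rfl fun n _ => ?_
        rw [tsum_mul_left]
        congr 1
        exact (Equiv.subRight n).tsum_eq (fun m : ℤ => ‖ξ m‖)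
    _ = (∑ n ∈ g.support, ‖g n‖) * ∑' m : ℤ, ‖ξ m‖ := by rw [sum_mul]

/-- the representation by the evaluation at a point -/
private noncomputable def rp_NLB (x : X) : Rep X where
  Y := Unit
  mY := inferInstance
  ν := Measure.dirac ()
  sf := inferInstance
  π := (Algebra.ofId ℂ (Lp ℂ 1 (Measure.dirac ()) →L[ℂ] Lp ℂ 1 (Measure.dirac ()))).comp
    (ContinuousMap.evalAlgHom ℂ ℂ x)
  contr := by
    intro f
    change ‖algebraMap ℂ (Lp ℂ 1 (Measure.dirac ()) →L[ℂ] Lp ℂ 1 (Measure.dirac ())) (f x)‖ ≤ ‖f‖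
    rw [norm_algebraMap]
    calc ‖f x‖ * ‖(1 : Lp ℂ 1 (Measure.dirac ()) →L[ℂ] Lp ℂ 1 (Measure.dirac ()))‖
        ≤ ‖f‖ * 1 := mul_le_mul (f.norm_coe_le_norm x) ContinuousLinearMap.norm_id_le
          (norm_nonneg _) (norm_nonneg _)
      _ = ‖f‖ := mul_one _

private theorem rp_apply_NLB (x : X) (f : C(X, ℂ)) (v : Lp ℂ 1 (rp_NLB x).ν) :
    (rp_NLB x).π f v = f x • v := by
  change (algebraMap ℂ (Lp ℂ 1 (Measure.dirac ()) →L[ℂ] Lp ℂ 1 (Measure.dirac ())) (f x)) v = _
  rw [Algebra.algebraMap_eq_smul_one]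
  rfl

private theorem vec_NLB (x : X) : ∃ e : Lp ℂ 1 (rp_NLB x).ν, ‖e‖ = 1 := by
  refine ⟨indicatorConstLp (μ := (Measure.dirac () : Measure Unit)) 1 MeasurableSet.univ
    (measure_ne_top _ _) (1 : ℂ), ?_⟩
  have := norm_indicatorConstLp (μ := (Measure.dirac () : Measure Unit)) (p := 1)
    (hs := MeasurableSet.univ) (hμs := measure_ne_top _ _) (c := (1 : ℂ)) one_ne_zero
    ENNReal.one_ne_top
  refine Eq.trans this ?_
  simp

end

theorem hNLB : StNlb := by
  intro X _ _ h g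
  refine ⟨?_, ?_⟩
  · intro x
    unfold nrm
    apply le_csInf
    · exact ⟨∑ n ∈ g.support, ‖g n‖, sum_nonneg fun _ _ => norm_nonneg _, mem_NLB h g⟩
    · rintro c ⟨hc0, hc⟩
      obtain ⟨e, he⟩ := vec_NLB x
      have h1 := hc (rp_NLB x) (Finsupp.single 0 e)
      have h2 : ∑' m : ℤ, ‖(Finsupp.single (0 : ℤ) e) m‖ = 1 := by
        rw [tsum_eq_single 0]
        · rw [Finsupp.single_eq_same, he]
        · intro m hm
          rw [Finsupp.single_eq_of_ne hm, norm_zero]
      have h3 : ∀ m : ℤ, act h (rp_NLB x) g (Finsupp.single 0 e) m =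
          ((g m) ((h ^ m : X ≃ₜ X) x)) • e := by
        intro m
        unfold act Finsupp.sum
        rw [Finset.sum_eq_single m]
        · beta_reduce
          rw [sub_self, Finsupp.single_eq_same, rp_apply_NLB]
          rfl
        · intro n _ hn
          have : m - n ≠ 0 := by
            intro h0
            apply hn
            omega
          beta_reduce
          rw [Finsupp.single_eq_of_ne this, map_zero]
        · intro hm
          beta_reduce
          rw [Finsupp.notMem_support_iff.1 hm, sub_self, rp_apply_NLB]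
          have : cmp h m (0 : C(X, ℂ)) x = 0 := rfl
          rw [this, zero_smul]
      have h4 : ∑' m : ℤ, ‖act h (rp_NLB x) g (Finsupp.single 0 e) m‖ =
          g.sum fun n f => ‖f ((h ^ n : X ≃ₜ X) x)‖ := by
        rw [tsum_congr (fun m => by rw [h3 m, norm_smul, he, mul_one])]
        unfold Finsupp.sum
        apply tsum_eq_sum
        intro m hm
        rw [Finsupp.notMem_support_iff.1 hm]
        simp
      rw [h2, h4, mul_one] at h1
      exact h1
  · unfold nrm
    apply Real.sInf_nonneg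
    rintro c ⟨hc, -⟩
    exact hc

end Pool.Agent.Helper84.XR
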